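import Pool.Agent.MP_1c0426_nt.Reduce

-- part MP_1c0426_nt.Cos
section

/-! The cosine moment inequality with the central binomial constant. -/

set_option autoImplicit false

namespace Pool.Agent.MP_1c0426_nt

open Finset Complex

theorem cos_pow_eq {k : ℕ} (hk : 0 < k) (ξ : ℝ) :
    (4 : ℝ) ^ k * Real.cos (Real.pi * ξ / k) ^ (2 * k) =
      ∑ i ∈ range (2 * k + 1), ((2 * k).choose i : ℝ) * (ee k (ξ * ((i : ℤ) - k : ℤ))).re := by
  have hk' : (k : ℝ) ≠ 0 := by positivity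
  have h1 : ((2 * Real.cos (Real.pi * ξ / k) : ℝ) : ℂ) = ee k (ξ / 2) + ee k (-(ξ / 2)) := by
    rw [← conj_ee, Complex.add_conj, re_ee]
    congr 3
    ring
  have h2 : (((4 : ℝ) ^ k * Real.cos (Real.pi * ξ / k) ^ (2 * k) : ℝ) : ℂ) =
      ∑ i ∈ range (2 * k + 1), (((2 * k).choose i : ℝ) : ℂ) * ee k (ξ * ((i : ℤ) - k : ℤ)) := by
    have e : (4 : ℝ) ^ k * Real.cos (Real.pi * ξ / k) ^ (2 * k) =
        (2 * Real.cos (Real.pi * ξ / k)) ^ (2 * k) := by
      rw [mul_pow, pow_mul 2]; norm_num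
    rw [e, Complex.ofReal_pow, h1, add_pow]
    refine Finset.sum_congr rfl fun i hi => ?_
    have hi' : i ≤ 2 * k := by have := Finset.mem_range.1 hi; omega
    rw [← ee_nat_mul, ← ee_nat_mul, ← ee_add, mul_comm]
    congr 2
    push_cast [Nat.cast_sub hi']
    ring
  have h3 := congrArg Complex.re h2
  rw [Complex.ofReal_re, Complex.re_sum] at h3
  rw [h3]
  refine Finset.sum_congr rfl fun i _ => ?_
  rw [Complex.re_ofReal_mul]

theorem sum_cos_pow_ge {k : ℕ} (hk : 0 < k) (J : ℕ) :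
    (k : ℝ) * (2 * k).choose k ≤
      4 ^ k * ∑ s ∈ range k, Real.cos (Real.pi * ((s : ℝ) - J) / k) ^ (2 * k) := by
  rw [Finset.mul_sum]
  simp_rw [cos_pow_eq hk]
  rw [Finset.sum_comm]
  simp_rw [← Finset.mul_sum, ← Complex.re_sum]
  have hpos : ∀ i ∈ range (2 * k + 1), 0 ≤ ((2 * k).choose i : ℝ) *
      (∑ s ∈ range k, ee k (((s : ℝ) - J) * ((i : ℤ) - k : ℤ))).re := by
    intro i hi
    have hi' : i ≤ 2 * k := by have := Finset.mem_range.1 hi; omega
    refine mul_nonneg (by positivity) ?_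
    by_cases h : |(i : ℤ) - k| < k
    · rw [orth J h]
      split_ifs <;> simp
    · have hi2 : i = 0 ∨ i = 2 * k := by
        rw [abs_lt] at h
        omega
      have : ∀ s : ℕ, ee k (((s : ℝ) - J) * ((i : ℤ) - k : ℤ)) = 1 := by
        intro s
        rcases hi2 with rfl | rfl
        · rw [← ee_int_self hk (J - s)]; congr 1; push_cast; ring
        · rw [← ee_int_self hk (s - J)]; congr 1; push_cast; ring
      simp_rw [this]
      simp
  refine le_trans (le_of_eq ?_)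
    (Finset.single_le_sum hpos (Finset.mem_range.2 (show k < 2 * k + 1 by omega)))
  rw [orth J (by simpa using hk)]
  simp [mul_comm]

theorem good_cos {k : ℕ} (hk : 0 < k) : Good k (k / 2) (k * (2 * k).choose k / 4 ^ k) := by
  intro A θ hne hθ
  have hk' : (0 : ℝ) < k := by exact_mod_cast hk
  have hm : (0 : ℝ) < A.card := by exact_mod_cast hne.card_pos
  have hpi := Real.pi_pos
  set J := k / 2 with hJ
  set f : ℝ → ℝ := fun ξ => Real.cos (Real.pi * ξ / k) ^ (2 * k) with hf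
  have h1 : ∑ s ∈ range k, f ((s : ℝ) - J) ≤ ∑ s ∈ range (2 * J + 1), f ((s : ℝ) - J) :=
    Finset.sum_le_sum_of_subset_of_nonneg (Finset.range_mono (by omega)) (fun s _ _ =>
      (even_two_mul k).pow_nonneg _)
  rw [sum_sym] at h1
  have h2 : (k : ℝ) * (2 * k).choose k / 4 ^ k ≤ ∑ s ∈ range k, f ((s : ℝ) - J) := by
    rw [div_le_iff₀ (by positivity), mul_comm _ ((4 : ℝ) ^ k)]
    exact sum_cos_pow_ge hk J
  refine h2.trans (h1.trans ?_)
  have h0 : f 0 = 1 := by simp [hf]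
  rw [h0, Finset.mul_sum]
  refine add_le_add_right (Finset.sum_le_sum fun j hj => ?_) _
  have hj2 : 2 * ((j : ℝ) + 1) ≤ k := by
    have := Finset.mem_range.1 hj
    exact_mod_cast (by omega : 2 * (j + 1) ≤ k)
  have e : f (-(j + 1)) = f (j + 1) := by
    simp only [hf]
    rw [mul_neg, neg_div, Real.cos_neg]
  rw [e, ← two_mul]
  refine mul_le_mul_of_nonneg_left ?_ (by norm_num)
  have hle : Real.pi * (j + 1) / k ≤ Real.pi / 2 := by
    rw [div_le_div_iff₀ hk' (by norm_num)]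
    nlinarith
  have hge : 0 ≤ Real.pi * (j + 1) / k := by positivity
  refine pow_le_pow_left₀ (Real.cos_nonneg_of_mem_Icc ⟨by linarith, hle⟩) ?_ _
  rw [le_div_iff₀ hm, mul_comm, ← nsmul_eq_mul]
  refine Finset.card_nsmul_le_sum A _ _ fun a ha => ?_
  rw [← Real.cos_abs ((j + 1 : ℝ) * θ a)]
  refine Real.cos_le_cos_of_nonneg_of_le_pi (abs_nonneg _) (by linarith) ?_
  rw [abs_mul, abs_of_pos (by positivity)]
  have := mul_le_mul_of_nonneg_left (hθ a ha) (show (0 : ℝ) ≤ j + 1 by positivity)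
  refine this.trans (le_of_eq ?_)
  ring

end Pool.Agent.MP_1c0426_nt

end

-- part MP_1c0426_nt.Cert
section

/-! Certificates for the cosine moment inequality. -/

set_option autoImplicit false

namespace Pool.Agent.MP_1c0426_nt

open Finset

theorem young {k : ℕ} (hk : 0 < k) (t y : ℝ) :
    (1 - 2 * k) * y ^ (2 * k) + 2 * k * y ^ (2 * k - 1) * t ≤ t ^ (2 * k) := by
  have hc : ConvexOn ℝ Set.univ (fun x : ℝ => x ^ (2 * k)) := (even_two_mul k).convexOn_pow
  have hd : HasDerivAt (fun x : ℝ => x ^ (2 * k)) (((2 * k : ℕ) : ℝ) * y ^ (2 * k - 1)) y :=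
    hasDerivAt_pow _ _
  have e : y ^ (2 * k) = y ^ (2 * k - 1) * y := by
    rw [← pow_succ]; congr 1; omega
  rcases lt_trichotomy t y with h | h | h
  · have := hc.slope_le_of_hasDerivAt (Set.mem_univ t) (Set.mem_univ y) h hd
    rw [slope_def_field, div_le_iff₀ (by linarith)] at this
    push_cast at this
    nlinarith
  · subst h; rw [e]; apply le_of_eq; ring
  · have := hc.le_slope_of_hasDerivAt (Set.mem_univ y) (Set.mem_univ t) h hd
    rw [slope_def_field, le_div_iff₀ (by linarith)] at this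
    push_cast at this
    nlinarith

/-- linear form with integer weights -/
noncomputable def lin : List ℤ → ℕ → (ℕ → ℝ) → ℝ
  | [], _, _ => 0
  | w :: ws, j, c => w * c j + lin ws (j + 1) c

theorem lin_avg (A : Finset ℕ) (f : ℕ → ℕ → ℝ) (m : ℝ) : ∀ (ws : List ℤ) (j : ℕ),
    lin ws j (fun i => (∑ a ∈ A, f a i) / m) = (∑ a ∈ A, lin ws j (f a)) / m
  | [], _ => by simp [lin]
  | w :: ws, j => by
    simp only [lin]
    rw [lin_avg A f m ws (j + 1), Finset.sum_add_distrib, ← Finset.mul_sum]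
    ring

/-- sum of powers -/
def pw (e : ℕ) : List ℤ → ℤ
  | [] => 0
  | y :: Y => y ^ e + pw e Y

theorem young_list {k : ℕ} (hk : 0 < k) (S D : ℤ) (hD : 0 ≤ D) (c : ℕ → ℝ) : ∀ (Y : List ℤ) (j : ℕ),
    D * ((1 - 2 * k) * pw (2 * k) Y) + lin (Y.map fun y => D * (2 * k * y ^ (2 * k - 1) * S)) j c ≤
      D * (S : ℝ) ^ (2 * k) * ∑ i ∈ range Y.length, c (j + i) ^ (2 * k)
  | [], _ => by simp [lin, pw]
  | y :: Y, j => by
    have ih := young_list hk S D hD c Y (j + 1)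
    have h1 := young hk (S * c j) y
    have hD' : (0 : ℝ) ≤ D := by exact_mod_cast hD
    have h2 := mul_le_mul_of_nonneg_left h1 hD'
    simp only [List.map_cons, lin, pw, List.length_cons]
    rw [Finset.sum_range_succ']
    have e : ∀ i : ℕ, c (j + (i + 1)) = c (j + 1 + i) := fun i => by congr 1; ring
    simp_rw [e]
    rw [mul_pow] at h2
    push_cast
    simp only [Nat.add_zero]
    linarith

/-- the cosine polynomial -/
noncomputable def cs (ws : List ℤ) (j : ℕ) (θ : ℝ) : ℝ :=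
  lin ws j (fun i => Real.cos ((i + 1 : ℝ) * θ))

/-- bound for the second derivative -/
def b2 : List ℤ → ℕ → ℤ
  | [], _ => 0
  | w :: ws, j => |w| * ((j + 1 : ℕ) : ℤ) ^ 2 + b2 ws (j + 1)

theorem b2_nonneg : ∀ (ws : List ℤ) (j : ℕ), 0 ≤ b2 ws j
  | [], _ => le_rfl
  | w :: ws, j => by have := b2_nonneg ws (j + 1); simp only [b2]; positivity

theorem concave_one (w a : ℝ) :
    ConcaveOn ℝ Set.univ (fun θ : ℝ => w * Real.cos (a * θ) - |w| * a ^ 2 / 2 * θ ^ 2) := by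
  have d1 : ∀ θ : ℝ, HasDerivAt (fun θ : ℝ => w * Real.cos (a * θ) - |w| * a ^ 2 / 2 * θ ^ 2)
      (-(w * a * Real.sin (a * θ)) - |w| * a ^ 2 * θ) θ := by
    intro θ
    have h1 := (((hasDerivAt_id θ).const_mul a).cos.const_mul w).sub
      ((hasDerivAt_pow 2 θ).const_mul (|w| * a ^ 2 / 2))
    refine h1.congr_deriv ?_
    simp only [id, Nat.cast_ofNat]
    ring
  have d2 : ∀ θ : ℝ, HasDerivAt (fun θ : ℝ => -(w * a * Real.sin (a * θ)) - |w| * a ^ 2 * θ)
      (-(w * a ^ 2 * Real.cos (a * θ)) - |w| * a ^ 2) θ := by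
    intro θ
    have h1 := (((hasDerivAt_id θ).const_mul a).sin.const_mul (w * a)).neg.sub
      ((hasDerivAt_id θ).const_mul (|w| * a ^ 2))
    refine h1.congr_deriv ?_
    simp only [id]
    ring
  refine concaveOn_of_hasDerivWithinAt2_nonpos convex_univ
    (fun θ _ => (d1 θ).continuousAt.continuousWithinAt) (fun θ _ => (d1 θ).hasDerivWithinAt)
    (fun θ _ => (d2 θ).hasDerivWithinAt) (fun θ _ => ?_)
  have h1 : |w * Real.cos (a * θ)| ≤ |w| := by
    rw [abs_mul]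
    exact mul_le_of_le_one_right (abs_nonneg _) (Real.abs_cos_le_one _)
  have h2 := (abs_le.1 h1).1
  nlinarith [sq_nonneg a]

theorem concave_cs : ∀ (ws : List ℤ) (j : ℕ),
    ConcaveOn ℝ Set.univ (fun θ : ℝ => cs ws j θ - (b2 ws j : ℝ) / 2 * θ ^ 2)
  | [], _ => by simpa [cs, lin, b2] using concaveOn_const (0 : ℝ) convex_univ
  | w :: ws, j => by
    have h := (concave_one (w : ℝ) (j + 1 : ℝ)).add (concave_cs ws (j + 1))
    refine h.congr (fun θ _ => ?_)
    simp only [cs, lin, b2, Pi.add_apply]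
    push_cast
    ring

theorem between {g : ℝ → ℝ} {B : ℝ} (hB : 0 ≤ B)
    (hc : ConcaveOn ℝ Set.univ (fun θ : ℝ => g θ - B / 2 * θ ^ 2)) {a b x β Δ : ℝ}
    (hax : a ≤ x) (hxb : x ≤ b) (hΔ : b - a ≤ Δ) (ha : β ≤ g a) (hb : β ≤ g b) :
    β - B * Δ ^ 2 / 8 ≤ g x := by
  rcases (hax.trans hxb).eq_or_lt with h | h
  · have : x = a := by linarith
    rw [this]
    have : 0 ≤ B * Δ ^ 2 / 8 := by positivity
    linarith
  have hd : 0 < b - a := by linarith
  set s := (x - a) / (b - a) with hs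
  have hs0 : 0 ≤ s := div_nonneg (by linarith) hd.le
  have hs1 : s ≤ 1 := by rw [hs, div_le_one hd]; linarith
  have hx : x = (1 - s) * a + s * b := by rw [hs]; field_simp; ring
  have := hc.2 (Set.mem_univ a) (Set.mem_univ b) (show 0 ≤ 1 - s by linarith) hs0 (by ring)
  simp only [smul_eq_mul] at this
  rw [← hx] at this
  have h1 : (1 - s) * (B / 2 * a ^ 2) + s * (B / 2 * b ^ 2) - B / 2 * x ^ 2 =
      B / 2 * (s * (1 - s)) * (b - a) ^ 2 := by rw [hx]; ring
  have h2 : s * (1 - s) ≤ 1 / 4 := by nlinarith [sq_nonneg (s - 1 / 2)]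
  have h3 : (b - a) ^ 2 ≤ Δ ^ 2 := pow_le_pow_left₀ hd.le hΔ 2
  have h4 : B / 2 * (s * (1 - s)) * (b - a) ^ 2 ≤ B / 2 * (1 / 4) * Δ ^ 2 := by
    have : 0 ≤ s * (1 - s) := mul_nonneg hs0 (by linarith)
    gcongr
  have h5 : (1 - s) * β ≤ (1 - s) * g a := mul_le_mul_of_nonneg_left ha (by linarith)
  have h6 : s * β ≤ s * g b := mul_le_mul_of_nonneg_left hb hs0
  nlinarith

/-- sum of absolute values -/
def sabs : List ℤ → ℤ
  | [] => 0
  | w :: ws => |w| + sabs ws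

/-- evaluation loop on natural numbers -/
noncomputable def loopN (p2 q q2 r : ℕ) (W : List ℤ) : ℕ → ℕ → ℕ → ℕ → ℕ :=
  @List.rec ℤ (fun _ => ℕ → ℕ → ℕ → ℕ → ℕ) (fun _ _ _ acc => acc)
    (fun w _ ih v0 v1 Q acc =>
      ih v1 (Nat.sub (Nat.add (Nat.mul p2 v1) (Nat.mul r Q)) (Nat.mul q2 v0)) (Nat.mul q Q)
        (@Int.rec (fun _ => ℕ) (fun a => Nat.add (Nat.mul q acc) (Nat.mul a v1))
          (fun a => Nat.add (Nat.mul q acc) (Nat.mul (Nat.succ a) (Nat.sub (Nat.mul 2 Q) v1))) w)) W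

theorem loopN_eq {p2 q q2 r : ℕ} {θ : ℝ} (hp : (p2 : ℝ) = 2 * q * Real.cos θ) (hq : q2 = q * q)
    (hr : r + p2 = 2 * q) :
    ∀ (ws : List ℤ) (j : ℕ) (v0 v1 Q acc : ℕ) (a : ℝ),
      (v0 : ℝ) = (q : ℝ) ^ j * (1 + Real.cos (j * θ)) →
      (v1 : ℝ) = (q : ℝ) ^ (j + 1) * (1 + Real.cos ((j + 1 : ℝ) * θ)) →
      (Q : ℝ) = (q : ℝ) ^ (j + 1) →
      (acc : ℝ) = (q : ℝ) ^ j * a →
      (loopN p2 q q2 r ws v0 v1 Q acc : ℝ) =
        (q : ℝ) ^ (j + ws.length) * (a + (sabs ws + cs ws j θ))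
  | [], j, _, _, _, acc, a => by
    intro _ _ _ h
    change (acc : ℝ) = _
    simp [cs, lin, sabs, h]
  | w :: ws, j, v0, v1, Q, acc, a => by
    intro h0 h1 hQ h2
    have hr' : (r : ℝ) = 2 * q - 2 * q * Real.cos θ := by
      have : ((r + p2 : ℕ) : ℝ) = ((2 * q : ℕ) : ℝ) := by rw [hr]
      push_cast at this
      linarith
    have hnext : (p2 : ℝ) * v1 + r * Q - q2 * v0 =
        (q : ℝ) ^ (j + 1 + 1) * (1 + Real.cos ((j + 1 + 1 : ℝ) * θ)) := by
      rw [hp, h0, h1, hq, hQ, hr']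
      have e1 : (j + 1 + 1 : ℝ) * θ = (j + 1 : ℝ) * θ + θ := by ring
      have e2 : (j : ℝ) * θ = (j + 1 : ℝ) * θ - θ := by ring
      rw [e1, e2, Real.cos_add, Real.cos_sub]
      push_cast
      ring
    have hle : q2 * v0 ≤ p2 * v1 + r * Q := by
      have : (0 : ℝ) ≤ (q : ℝ) ^ (j + 1 + 1) * (1 + Real.cos ((j + 1 + 1 : ℝ) * θ)) :=
        mul_nonneg (by positivity) (by linarith [Real.neg_one_le_cos ((j + 1 + 1 : ℝ) * θ)])
      have h3 : ((q2 * v0 : ℕ) : ℝ) ≤ ((p2 * v1 + r * Q : ℕ) : ℝ) := by push_cast; linarith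
      exact_mod_cast h3
    have hle2 : v1 ≤ 2 * Q := by
      have : (q : ℝ) ^ (j + 1) * (1 + Real.cos ((j + 1 : ℝ) * θ)) ≤ (q : ℝ) ^ (j + 1) * 2 :=
        mul_le_mul_of_nonneg_left (by linarith [Real.cos_le_one ((j + 1 : ℝ) * θ)]) (by positivity)
      have h3 : ((v1 : ℕ) : ℝ) ≤ ((2 * Q : ℕ) : ℝ) := by push_cast; rw [h1, hQ]; linarith
      exact_mod_cast h3
    have key : ∀ acc' : ℕ, (acc' : ℝ) =
        (q : ℝ) ^ (j + 1) * (a + (|(w : ℝ)| + w * Real.cos ((j + 1 : ℝ) * θ))) →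
        (loopN p2 q q2 r ws v1 (p2 * v1 + r * Q - q2 * v0) (q * Q) acc' : ℝ) =
          (q : ℝ) ^ (j + (w :: ws).length) * (a + (sabs (w :: ws) + cs (w :: ws) j θ)) := by
      intro acc' h3
      rw [loopN_eq hp hq hr ws (j + 1) _ _ _ _ _ (by rw [h1]; push_cast; rfl)
        (by rw [Nat.cast_sub hle]; push_cast; exact hnext) (by push_cast; rw [hQ]; ring) h3]
      simp only [cs, lin, sabs, List.length_cons]
      rw [show j + 1 + ws.length = j + (ws.length + 1) by ring]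
      push_cast
      ring
    cases w with
    | ofNat b =>
      refine key (q * acc + b * v1) ?_
      push_cast
      rw [h1, h2]
      simp only [Int.ofNat_eq_natCast, Int.cast_natCast, Nat.abs_cast]
      ring
    | negSucc b =>
      refine key (q * acc + (b + 1) * (2 * Q - v1)) ?_
      push_cast [Nat.cast_sub hle2]
      rw [h1, h2, hQ, abs_neg, abs_of_nonneg (by positivity)]
      ring

/-- sine recursion -/
def srec (p2 q2 : ℤ) : ℕ → ℤ → ℤ → ℤ
  | 0, v0, _ => v0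
  | n + 1, v0, v1 => srec p2 q2 n v1 (p2 * v1 - q2 * v0)

theorem srec_eq {p2 q q2 : ℤ} {θ : ℝ} (hp : (p2 : ℝ) = 2 * q * Real.cos θ) (hq : q2 = q * q) :
    ∀ (n j : ℕ) (v0 v1 : ℤ), (v0 : ℝ) = (q : ℝ) ^ j * Real.sin (j * θ) →
      (v1 : ℝ) = (q : ℝ) ^ (j + 1) * Real.sin ((j + 1 : ℝ) * θ) →
      (srec p2 q2 n v0 v1 : ℝ) = (q : ℝ) ^ (j + n) * Real.sin ((j + n : ℝ) * θ)
  | 0, j, _, _ => by intro h _; simp [srec, h]
  | n + 1, j, v0, v1 => by
    intro h0 h1
    rw [srec, srec_eq hp hq n (j + 1)]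
    · push_cast
      rw [show j + 1 + n = j + (n + 1) by ring, show (j + 1 + n : ℝ) = j + (n + 1) by ring]
    · rw [h1]; push_cast; rfl
    · push_cast
      rw [hp, h0, h1, hq]
      have e1 : (j + 1 + 1 : ℝ) * θ = (j + 1 : ℝ) * θ + θ := by ring
      have e2 : (j : ℝ) * θ = (j + 1 : ℝ) * θ - θ := by ring
      rw [e1, e2, Real.sin_add, Real.sin_sub]
      push_cast
      ring

/-- grid angles -/
noncomputable def ang (N i : ℕ) : ℝ := 2 * Real.arctan (i / N)

theorem cos_ang {N : ℕ} (hN : 0 < N) (i : ℕ) :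
    ((N : ℝ) * N + i * i) * Real.cos (ang N i) = N * N - i * i := by
  have : (0 : ℝ) < N := by exact_mod_cast hN
  rw [ang, Real.cos_two_mul, Real.cos_sq_arctan]
  field_simp
  ring

theorem sin_ang {N : ℕ} (hN : 0 < N) (i : ℕ) :
    ((N : ℝ) * N + i * i) * Real.sin (ang N i) = 2 * N * i := by
  have : (0 : ℝ) < N := by exact_mod_cast hN
  have h1 : Real.sin (Real.arctan (i / N)) = (i / N) * Real.cos (Real.arctan (i / N)) := by
    have := Real.tan_mul_cos (Real.cos_arctan_pos (i / N)).ne'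
    rw [Real.tan_arctan] at this
    exact this.symm
  rw [ang, Real.sin_two_mul, h1, mul_assoc 2, mul_assoc _ (Real.cos _), ← sq (Real.cos _),
    Real.cos_sq_arctan]
  field_simp

theorem ang_step {N : ℕ} (hN : 0 < N) (i : ℕ) : ang N (i + 1) - ang N i ≤ 2 / N := by
  have hN' : (0 : ℝ) < N := by exact_mod_cast hN
  have hL : LipschitzWith 1 Real.arctan := by
    refine lipschitzWith_of_nnnorm_deriv_le Real.differentiable_arctan fun x => ?_
    rw [(Real.hasDerivAt_arctan x).deriv, ← NNReal.coe_le_coe, coe_nnnorm, Real.norm_eq_abs,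
      abs_of_pos (by positivity), NNReal.coe_one, div_le_one (by positivity)]
    nlinarith [sq_nonneg x]
  have h := hL.dist_le_mul (((i + 1 : ℕ) : ℝ) / N) ((i : ℝ) / N)
  rw [Real.dist_eq, Real.dist_eq] at h
  have e : (((i + 1 : ℕ) : ℝ) / N) - (i : ℝ) / N = 1 / N := by push_cast; field_simp; ring
  rw [e, abs_of_pos (show (0 : ℝ) < 1 / N by positivity)] at h
  have := le_abs_self (Real.arctan (((i + 1 : ℕ) : ℝ) / N) - Real.arctan ((i : ℝ) / N))
  simp only [NNReal.coe_one, one_mul] at h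
  have e2 : (2 : ℝ) / N = 2 * (1 / N) := by ring
  simp only [ang]
  linarith

theorem exists_cell (f : ℕ → ℝ) {x : ℝ} (h0 : f 0 ≤ x) : ∀ I : ℕ, 0 < I → x ≤ f I →
    ∃ i, i + 1 ≤ I ∧ f i ≤ x ∧ x ≤ f (i + 1)
  | 0, h, _ => absurd h (lt_irrefl 0)
  | I + 1, _, h => by
    by_cases hI : f I ≤ x
    · exact ⟨I, le_rfl, hI, h⟩
    · have hI0 : 0 < I := by
        rcases Nat.eq_zero_or_pos I with rfl | h
        · exact absurd h0 hI
        · exact h
      obtain ⟨i, h1, h2⟩ := exists_cell f h0 I hI0 (le_of_lt (not_le.1 hI))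
      exact ⟨i, by omega, h2⟩

/-- check at one grid point -/
noncomputable def pt (N : ℕ) (W : List ℤ) (T : ℕ) (i : ℕ) : Bool :=
  Nat.ble (Nat.mul T (Nat.pow (Nat.add (Nat.mul N N) (Nat.mul i i)) W.length))
    (loopN (Nat.mul 2 (Nat.sub (Nat.mul N N) (Nat.mul i i))) (Nat.add (Nat.mul N N) (Nat.mul i i))
      (Nat.mul (Nat.add (Nat.mul N N) (Nat.mul i i)) (Nat.add (Nat.mul N N) (Nat.mul i i)))
      (Nat.mul 4 (Nat.mul i i)) W 2 (Nat.mul 2 (Nat.mul N N))
      (Nat.add (Nat.mul N N) (Nat.mul i i)) 0)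

theorem pt_sound {N : ℕ} (hN : 0 < N) {W : List ℤ} {E : ℤ} {i : ℕ} (hi : i ≤ N)
    (h : pt N W (sabs W - E).toNat i = true) : 0 ≤ (E : ℝ) + cs W 0 (ang N i) := by
  have hc := cos_ang hN i
  have hN' : (0 : ℝ) < N := by exact_mod_cast hN
  have hii : i * i ≤ N * N := Nat.mul_le_mul hi hi
  have e := loopN_eq (p2 := 2 * (N * N - i * i)) (q := N * N + i * i) (r := 4 * (i * i))
    (θ := ang N i) (by push_cast [Nat.cast_sub hii]; rw [mul_assoc, hc]) rfl (by omega)
    W 0 2 (2 * (N * N)) (N * N + i * i) 0 0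
    (by norm_num) (by push_cast; simp only [zero_add, pow_one, one_mul]; rw [mul_add, hc]; ring)
    (by simp) (by simp)
  have h1 : (sabs W - E).toNat * (N * N + i * i) ^ W.length ≤
      loopN (2 * (N * N - i * i)) (N * N + i * i) ((N * N + i * i) * (N * N + i * i)) (4 * (i * i))
        W 2 (2 * (N * N)) (N * N + i * i) 0 := Nat.le_of_ble_eq_true h
  have h2 : (((sabs W - E).toNat * (N * N + i * i) ^ W.length : ℕ) : ℝ) ≤ _ := Nat.cast_le.2 h1
  rw [e, Nat.cast_mul, Nat.cast_pow, zero_add, zero_add, mul_comm] at h2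
  have h3 := le_of_mul_le_mul_left h2 (by push_cast; positivity)
  have h4 : ((sabs W - E : ℤ) : ℝ) ≤ (((sabs W - E).toNat : ℤ) : ℝ) := by
    exact_mod_cast Int.self_le_toNat _
  push_cast at h4
  linarith

/-- check that the grid reaches `π / k` -/
def reach (k N I : ℕ) : Bool :=
  decide (srec (2 * ((N * N : ℕ) - (I * I : ℕ)))
    (((N * N + I * I : ℕ) : ℤ) * ((N * N + I * I : ℕ) : ℤ)) k 0 (2 * N * I) ≤ 0)

theorem reach_sound {k N I : ℕ} (hk : 0 < k) (hN : 0 < N) (hI : 0 < I) (h : reach k N I = true) :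
    Real.pi / k ≤ ang N I := by
  have hc := cos_ang hN I
  have hs := sin_ang hN I
  have hN' : (0 : ℝ) < N := by exact_mod_cast hN
  have hI' : (0 : ℝ) < I := by exact_mod_cast hI
  have hk' : (0 : ℝ) < k := by exact_mod_cast hk
  have e := srec_eq (p2 := 2 * ((N * N : ℕ) - (I * I : ℕ))) (q := ((N * N + I * I : ℕ) : ℤ))
    (θ := ang N I) (by push_cast; rw [mul_assoc, hc]) rfl k 0 0 (2 * N * I)
    (by simp) (by push_cast; simp [hs])
  have h1 : ((srec (2 * ((N * N : ℕ) - (I * I : ℕ)))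
    (((N * N + I * I : ℕ) : ℤ) * ((N * N + I * I : ℕ) : ℤ)) k 0 (2 * N * I) : ℤ) : ℝ) ≤ 0 := by
    exact_mod_cast of_decide_eq_true h
  rw [e] at h1
  by_contra hlt
  push Not at hlt
  rw [lt_div_iff₀ hk'] at hlt
  have hpos : 0 < ang N I := by
    have := Real.arctan_pos.2 (show (0 : ℝ) < I / N by positivity)
    simp only [ang]; linarith
  have h2 : 0 < Real.sin (((0 : ℕ) + k : ℝ) * ang N I) :=
    Real.sin_pos_of_pos_of_lt_pi (by simp only [Nat.cast_zero, zero_add]; positivity)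
      (by simp only [Nat.cast_zero, zero_add]; linarith)
  have h3 : (0 : ℝ) < (((N * N + I * I : ℕ) : ℤ) : ℝ) ^ (0 + k) := by push_cast; positivity
  have := mul_pos h3 h2
  linarith

theorem cs_neg (ws : List ℤ) (j : ℕ) (θ : ℝ) : cs ws j (-θ) = cs ws j θ := by
  simp [cs]

/-- weights of the certificate -/
def wts (k : ℕ) (S D : ℤ) (Y : List ℤ) : List ℤ := Y.map fun y => D * (2 * k * y ^ (2 * k - 1) * S)

theorem b2_scale (c : ℤ) (hc : 0 ≤ c) (f : ℤ → ℤ) : ∀ (Y : List ℤ) (j : ℕ),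
    b2 (Y.map fun y => c * f y) j = c * b2 (Y.map f) j
  | [], _ => by simp [b2]
  | y :: Y, j => by
    simp only [List.map_cons, b2]
    rw [b2_scale c hc f Y (j + 1), abs_mul, abs_of_nonneg hc]
    ring

/-- constant term of the certificate for the bound `k / L ≤ Cn / Cd` -/
def cst (k N S Cn Cd : ℕ) (Y : List ℤ) : ℤ :=
  (2 * N * N : ℕ) * (Cn * (S : ℤ) ^ (2 * k) - k * Cd * (S : ℤ) ^ (2 * k) +
    2 * Cn * ((1 - 2 * k) * pw (2 * k) Y)) - 2 * Cn * b2 (wts k S 1 Y) 0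

/-- the checker -/
noncomputable def check (k N I S Cn Cd : ℕ) (Y : List ℤ) : Bool :=
  reach k N I && (List.range (I + 1)).all (pt N (wts k S (4 * N * N * Cn : ℕ) Y)
    (sabs (wts k S (4 * N * N * Cn : ℕ) Y) - cst k N S Cn Cd Y).toNat)

theorem check_sound {k N I S Cn Cd : ℕ} {Y : List ℤ} (hk : 0 < k) (hN : 0 < N) (hI : 0 < I)
    (hIN : I ≤ N) (hS : 0 < S) (hC : 0 < Cn) (h : check k N I S Cn Cd Y = true) :
    Good k Y.length (k * Cd / Cn) := by
  simp only [check, Bool.and_eq_true, List.all_eq_true, List.mem_range] at h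
  obtain ⟨h1, h2⟩ := h
  have hr := reach_sound hk hN hI h1
  have hN' : (0 : ℝ) < N := by exact_mod_cast hN
  have hS' : (0 : ℝ) < S := by exact_mod_cast hS
  have hC' : (0 : ℝ) < Cn := by exact_mod_cast hC
  set W := wts k S (4 * N * N * Cn : ℕ) Y with hW
  have hb : (b2 W 0 : ℝ) = 4 * N * N * Cn * b2 (wts k S 1 Y) 0 := by
    have := b2_scale ((4 * N * N * Cn : ℕ) : ℤ) (by positivity)
      (fun y => (2 * k * y ^ (2 * k - 1) * S)) Y 0
    simp only [hW, wts, one_mul]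
    rw [this]
    push_cast
    rfl
  have hall : ∀ θ : ℝ, |θ| ≤ Real.pi / k →
      -((2 * N * N : ℝ) * (Cn * (S : ℝ) ^ (2 * k) - k * Cd * (S : ℝ) ^ (2 * k) +
        2 * Cn * ((1 - 2 * k) * pw (2 * k) Y))) ≤ cs W 0 θ := by
    intro θ hθ
    have e : cs W 0 θ = cs W 0 |θ| := by
      rcases abs_choice θ with h | h <;> rw [h]
      rw [cs_neg]
    rw [e]
    obtain ⟨i, hi, ha, hb'⟩ := exists_cell (ang N) (x := |θ|) (by simp [ang]) I hI (hθ.trans hr)
    have p1 := pt_sound hN (by omega) (h2 i (by omega))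
    have p2 := pt_sound hN (by omega) (h2 (i + 1) (by omega))
    have := between (g := cs W 0) (by exact_mod_cast b2_nonneg W 0) (concave_cs W 0) ha hb'
      (ang_step hN i) (β := -(cst k N S Cn Cd Y : ℝ)) (by linarith) (by linarith)
    refine le_trans (le_of_eq ?_) this
    rw [hb, cst]
    push_cast
    field_simp
    ring
  intro A θ hne hθ
  have hm : (0 : ℝ) < A.card := by exact_mod_cast hne.card_pos
  have hy := young_list hk S ((4 * N * N * Cn : ℕ) : ℤ) (by positivity)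
    (fun i => (∑ a ∈ A, Real.cos ((i + 1 : ℝ) * θ a)) / A.card) Y 0
  rw [lin_avg A (fun a i => Real.cos ((i + 1 : ℝ) * θ a))] at hy
  have hs := Finset.card_nsmul_le_sum A (fun a => cs W 0 (θ a)) _ (fun a ha => hall _ (hθ a ha))
  rw [nsmul_eq_mul, mul_comm, ← le_div_iff₀ hm] at hs
  simp only [cs, hW, wts] at hs
  simp only [Nat.zero_add] at hy
  generalize (∑ j ∈ range Y.length,
    ((∑ a ∈ A, Real.cos ((j + 1 : ℝ) * θ a)) / A.card) ^ (2 * k)) = T at *
  have h3 := (add_le_add_right hs _).trans hy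
  push_cast at h3
  have hP : (0 : ℝ) < 2 * N * N * (S : ℝ) ^ (2 * k) := by positivity
  rw [div_le_iff₀ hC']
  refine le_of_mul_le_mul_left ?_ hP
  linarith

end Pool.Agent.MP_1c0426_nt

end
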